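import Pool.Agent.LRG.StmtsK

/-!
# Squad LRG, row CHM (helper21): the polynomials chi
-/

set_option autoImplicit false

open Polynomial

namespace Pool.Agent.LRG.H21

theorem chm : K.ChmStmt := by
  refine ⟨?_, ?_⟩
  · intro S T _ _ f n e y
    unfold chi
    simp [Polynomial.map_sum]
  · intro S _ n e y hn
    unfold chi
    rw [add_assoc]
    refine monic_X_pow_add ?_
    refine (degree_add_le _ _).trans_lt (max_lt ?_ ?_)
    · refine (degree_sum_le _ _).trans_lt ?_
      refine (Finset.sup_lt_iff (WithBot.bot_lt_coe n)).2 fun j _ => ?_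
      refine (degree_C_mul_X_pow_le _ _).trans_lt ?_
      have := j.2
      have h1 : j.1 + 1 < n := by omega
      exact Nat.cast_lt.2 h1
    · exact degree_C_le.trans_lt (Nat.cast_pos.2 hn)

end Pool.Agent.LRG.H21
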