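import Pool.Agent.LRG.StmtsE

/-!
# Squad LRG, row EMB (helper21): the embeddings
-/

set_option autoImplicit false

open Polynomial NumberField

namespace Pool.Agent.LRG.H21

open Pool.Agent.LRG.E

theorem emb_ext {K : Type} [Field K] [NumberField K] {θ : K}
    (hgen : IntermediateField.adjoin ℚ {θ} = ⊤) {σ σ' : K →+* ℂ} (h : σ θ = σ' θ) : σ = σ' := by
  let S : IntermediateField ℚ K := (RingHom.eqLocusField σ σ').toIntermediateField (by
    intro q
    show σ (algebraMap ℚ K q) = σ' (algebraMap ℚ K q)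
    rw [eq_ratCast, map_ratCast, map_ratCast])
  have h1 : IntermediateField.adjoin ℚ {θ} ≤ S := by
    rw [IntermediateField.adjoin_le_iff, Set.singleton_subset_iff]
    exact h
  rw [hgen] at h1
  ext y
  exact h1 (IntermediateField.mem_top (x := y))

theorem emb : EmbStmt := by
  intro fct r₁ r₂ t x hx hirr K _ _ θ hgen hroot
  obtain ⟨-, hmon, hdeg, -⟩ := fct r₁ r₂ t
  have hn : 0 < r₁ + 2 * r₂ := by
    rcases Nat.eq_zero_or_pos (r₁ + 2 * r₂) with h | h
    · exfalso
      rw [h] at hdeg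
      have h1 : Gp r₁ r₂ t = 1 := by
        exact hmon.natDegree_eq_zero.1 hdeg
      rw [h1, sub_self, Polynomial.map_zero] at hirr
      exact not_irreducible_zero hirr
    · exact h
  have hPm : (Gp r₁ r₂ t - 1).Monic := by
    refine hmon.sub_of_left ?_
    rw [degree_one]
    refine lt_of_lt_of_eq ?_ (degree_eq_natDegree hmon.ne_zero).symm
    rw [hdeg]
    exact_mod_cast hn
  have hPd : (Gp r₁ r₂ t - 1).natDegree = r₁ + 2 * r₂ := by
    rw [← hdeg]
    refine natDegree_sub_eq_left_of_natDegree_lt ?_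
    rw [natDegree_one, hdeg]
    exact hn
  have hmin : (Gp r₁ r₂ t - 1).map (Int.castRingHom ℚ) = minpoly ℚ θ := by
    refine minpoly.eq_of_irreducible_of_monic hirr ?_ (hPm.map _)
    rw [← hroot]
    exact aeval_map_algebraMap ℚ θ (Gp r₁ r₂ t - 1)
  have hfin : Module.finrank ℚ K = r₁ + 2 * r₂ := by
    rw [← (Field.primitive_element_iff_minpoly_natDegree_eq ℚ θ).1 hgen, ← hmin,
      hPm.natDegree_map, hPd]
  have hex : ∀ σ : K →+* ℂ, ∃ o, σ θ = x o := by
    intro σ
    have h1 : eval (σ θ) ((Gp r₁ r₂ t - 1).map (Int.castRingHom ℂ)) = 0 := by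
      rw [eval_map]
      have h2 : σ (aeval θ (Gp r₁ r₂ t - 1)) = 0 := by rw [hroot, map_zero]
      rw [aeval_def, hom_eval₂] at h2
      have h3 : σ.comp (algebraMap ℤ K) = Int.castRingHom ℂ := RingHom.ext_int _ _
      rwa [h3] at h2
    rw [hx.prod, eval_prod, Finset.prod_eq_zero_iff] at h1
    obtain ⟨o, -, ho⟩ := h1
    refine ⟨o, ?_⟩
    rw [eval_sub, eval_X, eval_C] at ho
    exact sub_eq_zero.1 ho
  choose f hf using hex
  have hinj : Function.Injective f := by
    intro σ σ' h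
    refine emb_ext hgen ?_
    rw [hf σ, hf σ', h]
  have hcard : Fintype.card (K →+* ℂ) = Fintype.card (Ro r₁ r₂) := by
    rw [Embeddings.card, hfin]
    simp [Ro]
    ring
  have hbij : Function.Bijective f := (Fintype.bijective_iff_injective_and_card f).2 ⟨hinj, hcard⟩
  let e : Ro r₁ r₂ ≃ (K →+* ℂ) := (Equiv.ofBijective f hbij).symm
  have he : ∀ o, e o θ = x o := by
    intro o
    rw [hf (e o)]
    congr 1
    exact (Equiv.ofBijective f hbij).apply_symm_apply o
  refine ⟨e, ⟨hx, hgen, hroot, he, fun o => ?_, hfin⟩⟩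
  refine emb_ext hgen ?_
  rw [he, ← hx.conj, ← he]
  rfl

end Pool.Agent.LRG.H21
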