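import Pool.Agent.LRG.StmtsD

/-!
# Squad LRG, row PKB (helper21): packing in a proper subspace
-/

set_option autoImplicit false

namespace Pool.Agent.LRG.H21

theorem pkb : D.PkbStmt := by
  intro ι _ W S H lam hW hH hlam hS hsep
  classical
  obtain ⟨f, hf, hker⟩ := Submodule.exists_le_ker_of_lt_top W (lt_top_iff_ne_top.2 hW)
  set a : ι → ℝ := fun i => f (fun j => if i = j then 1 else 0) with ha
  have hfx : ∀ x : ι → ℝ, f x = ∑ i, x i * a i := by
    intro x
    rw [LinearMap.pi_apply_eq_sum_univ f x]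
    rfl
  have hex : ∃ i, a i ≠ 0 := by
    by_contra hcon
    push Not at hcon
    apply hf
    refine LinearMap.ext fun x => ?_
    rw [hfx]
    simp [hcon]
  obtain ⟨i1, hi1⟩ := hex
  have hne : Nonempty ι := ⟨i1⟩
  obtain ⟨i0, hi0⟩ := Finite.exists_max fun i => |a i|
  have ha0 : 0 < |a i0| := lt_of_lt_of_le (abs_pos.2 hi1) (hi0 i1)
  set r : ℝ := (Fintype.card ι : ℝ) with hr
  have hr1 : 1 ≤ r := by
    rw [hr]
    exact_mod_cast Fintype.card_pos
  have hnorm : ∀ x ∈ W, ∀ m : ℝ, 0 ≤ m → (∀ i, i ≠ i0 → |x i| ≤ m) → ‖x‖ ≤ r * m := by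
    intro x hx m hm hxm
    have h1 : f x = 0 := hker hx
    rw [hfx, ← Finset.add_sum_erase _ _ (Finset.mem_univ i0)] at h1
    have h2 : |x i0| * |a i0| ≤ r * m * |a i0| := by
      have h3 : x i0 * a i0 = -∑ i ∈ Finset.univ.erase i0, x i * a i := by linarith
      rw [← abs_mul, h3, abs_neg]
      refine (Finset.abs_sum_le_sum_abs _ _).trans ?_
      have h4 : ∀ i ∈ Finset.univ.erase i0, |x i * a i| ≤ m * |a i0| := by
        intro i hi
        rw [abs_mul]
        exact mul_le_mul (hxm i (Finset.ne_of_mem_erase hi)) (hi0 i) (abs_nonneg _) hm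
      refine (Finset.sum_le_sum h4).trans ?_
      rw [Finset.sum_const, nsmul_eq_mul, mul_assoc r]
      refine mul_le_mul_of_nonneg_right ?_ (mul_nonneg hm (abs_nonneg _))
      rw [hr]
      exact_mod_cast (Finset.card_le_univ _)
    have h5 : |x i0| ≤ r * m := le_of_mul_le_mul_right h2 ha0
    rw [pi_norm_le_iff_of_nonneg (mul_nonneg (by linarith) hm)]
    intro i
    rw [Real.norm_eq_abs]
    rcases eq_or_ne i i0 with h | h
    · rw [h]
      exact h5
    · refine (hxm i h).trans ?_
      nlinarith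
  set c : ℝ := 2 * r / lam with hc
  have hc0 : 0 < c := by positivity
  let F : (ι → ℝ) → ({i // i ≠ i0} → ℤ) := fun x i => ⌊x i * c⌋
  set B : Finset ℤ := Finset.Icc ⌊-(H * c)⌋ ⌊H * c⌋ with hB
  have hmaps : ∀ x ∈ S, F x ∈ Fintype.piFinset (fun _ : {i // i ≠ i0} => B) := by
    intro x hx
    rw [Fintype.mem_piFinset]
    intro i
    rw [hB, Finset.mem_Icc]
    have h1 : |x i| ≤ H := by
      have := (norm_le_pi_norm x (i : ι)).trans (hS x hx).2
      rwa [Real.norm_eq_abs] at this
    have h2 := abs_le.1 h1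
    constructor
    · refine Int.floor_le_floor ?_
      nlinarith
    · refine Int.floor_le_floor ?_
      nlinarith
  have hinj : Set.InjOn F S := by
    intro x hx y hy hxy
    by_contra hne
    have h1 := hsep x hx y hy hne
    have h2 : ‖x - y‖ ≤ r * (lam / (2 * r)) := by
      refine hnorm (x - y) (W.sub_mem (hS x hx).1 (hS y hy).1) _ (by positivity) fun i hi => ?_
      have h3 : ⌊x i * c⌋ = ⌊y i * c⌋ := congrFun hxy ⟨i, hi⟩
      have h4 := Int.abs_sub_lt_one_of_floor_eq_floor h3
      have h5 : |(x - y) i| * c < 1 := by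
        have h9 : |(x - y) i| * c = |x i * c - y i * c| := by
          rw [Pi.sub_apply, ← sub_mul, abs_mul, abs_of_pos hc0]
        rw [h9]
        exact h4
      have h6 : |(x - y) i| < 1 / c := by
        rw [lt_div_iff₀ hc0]
        exact h5
      have h7 : 1 / c = lam / (2 * r) := by
        rw [hc]
        field_simp
      rw [← h7]
      exact h6.le
    have h8 : r * (lam / (2 * r)) = lam / 2 := by field_simp
    rw [h8] at h2
    linarith
  have hcard : S.card ≤ B.card ^ (Fintype.card ι - 1) := by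
    have h1 := Finset.card_le_card_of_injOn F hmaps hinj
    rw [Fintype.card_piFinset, Finset.prod_const, Finset.card_univ] at h1
    have h2 : Fintype.card {i // i ≠ i0} = Fintype.card ι - 1 := by
      rw [Fintype.card_subtype_compl, Fintype.card_subtype_eq]
    rwa [h2] at h1
  have hBc : (B.card : ℝ) ≤ 4 * r * H / lam + 3 := by
    rw [hB, Int.card_Icc]
    have h1 : (((⌊H * c⌋ + 1 - ⌊-(H * c)⌋).toNat : ℤ) : ℝ) ≤ 4 * r * H / lam + 3 := by
      have h2 : ⌊-(H * c)⌋ ≤ ⌊H * c⌋ := Int.floor_le_floor (by nlinarith)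
      rw [Int.toNat_of_nonneg (by omega)]
      push_cast
      have h3 := Int.floor_le (H * c)
      have h4 := Int.lt_floor_add_one (-(H * c))
      have h5 : 4 * r * H / lam = 2 * (H * c) := by
        rw [hc]
        ring
      rw [h5]
      linarith
    exact_mod_cast h1
  calc (S.card : ℝ) ≤ ((B.card ^ (Fintype.card ι - 1) : ℕ) : ℝ) := by exact_mod_cast hcard
    _ = (B.card : ℝ) ^ (Fintype.card ι - 1) := by push_cast; rfl
    _ ≤ (4 * r * H / lam + 3) ^ (Fintype.card ι - 1) :=
        pow_le_pow_left₀ (Nat.cast_nonneg _) hBc _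

end Pool.Agent.LRG.H21
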