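import Pool.Agent.LRG.StmtsR

/-!
# Squad LRG, row RBM (helper21): robust sets
-/

set_option autoImplicit false

namespace Pool.Agent.LRG.H21

theorem rbm : R.RbmStatement := by
  refine ⟨?_, ?_⟩
  · intro N m c E L S hS
    by_contra hne
    rw [Finset.not_nonempty_iff_eq_empty] at hne
    subst hne
    refine hS ∅ (Finset.Subset.refl _) (by simp) ⟨1, one_ne_zero, ?_, ?_⟩
    · rw [MvPolynomial.totalDegree_one]
      exact Nat.zero_le _
    · intro x hx
      exact absurd hx (Finset.notMem_empty x)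
  · intro N m c E E' L L₁ L₂ S S₁ hS hE hL₁ hL hsub hcard S' hS' hc hdep
    refine hS S' (hS'.trans hsub) ?_ (hdep.mono hE (Finset.Subset.refl _))
    have h1 : (0 : ℝ) ≤ (S'.card : ℝ) := Nat.cast_nonneg _
    calc (S.card : ℝ) ≤ L₁ * (S₁.card : ℝ) := hcard
      _ ≤ L₁ * (L₂ * (S'.card : ℝ)) := mul_le_mul_of_nonneg_left hc hL₁
      _ = L₁ * L₂ * (S'.card : ℝ) := by ring
      _ ≤ L * (S'.card : ℝ) := mul_le_mul_of_nonneg_right hL h1

end Pool.Agent.LRG.H21
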