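import Pool.Agent.LRG.StmtsR2

/-!
# Squad LRG, row SCH (helper21): selection of a chart
-/

set_option autoImplicit false

open Polynomial

namespace Pool.Agent.LRG.H21

theorem exists_equiv {N m k : ℕ} (hk : N = m + k) (c : Fin m → Fin N)
    (hc : Function.Injective c) :
    ∃ φ : Fin (m + k) ≃ Fin N, ∀ (i : Fin m) (h : k + (i : ℕ) < m + k), φ ⟨k + i, h⟩ = c i := by
  classical
  have hcard : Fintype.card ((Set.range c)ᶜ : Set (Fin N)) = k := by
    rw [Fintype.card_compl_set, Fintype.card_fin, Set.card_range_of_injective hc,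
      Fintype.card_fin]
    omega
  let e1 : Fin k ≃ ((Set.range c)ᶜ : Set (Fin N)) := (Fintype.equivFinOfCardEq hcard).symm
  refine ⟨(finCongr (Nat.add_comm m k)).trans (finSumFinEquiv.symm.trans
    ((Equiv.sumCongr e1 (Equiv.ofInjective c hc)).trans
      ((Equiv.sumComm _ _).trans (Equiv.Set.sumCompl (Set.range c))))), fun i h => ?_⟩
  have h1 : (finCongr (Nat.add_comm m k)) ⟨k + i, h⟩ = Fin.natAdd k i := by
    ext
    rfl
  rw [Equiv.trans_apply, h1, Equiv.trans_apply, finSumFinEquiv_symm_apply_natAdd]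
  rfl

theorem sch : R2.SchStatement := by
  intro sel σ _ ε hε
  classical
  obtain ⟨θ, hθ, h⟩ := sel (Fintype.card σ) ε hε
  refine ⟨θ, hθ, fun e C => ?_⟩
  obtain ⟨B, hB, h⟩ := h e C
  refine ⟨B, hB, fun X hX S hS => ?_⟩
  let ψ : σ ≃ Fin (Fintype.card σ) := Fintype.equivFin σ
  let F : (σ → ℤ) → (Fin (Fintype.card σ) → ℤ) := fun x => x ∘ ψ.symm
  have hF : Function.Injective F := by
    intro x y hxy
    funext s
    have := congrFun hxy (ψ s)
    simpa [F] using this
  obtain ⟨m, E, c, T₀, hm, hmN, hE, hc, hT₀, hne, het, hrob⟩ := h X hX (S.image F) (by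
    rw [Finset.card_image_of_injective _ hF]
    exact hS)
  obtain ⟨k, hk⟩ := Nat.exists_eq_add_of_le hmN
  obtain ⟨φ₀, hφ₀⟩ := exists_equiv hk c hc
  have hlt : ∀ j : Fin k, (j : ℕ) < m + k := fun j => by omega
  choose G hG using fun j : Fin k => het (φ₀ ⟨j, hlt j⟩)
  let P : (Fin (Fintype.card σ) → ℤ) → (Fin (m + k) → ℤ) := fun x => x ∘ φ₀
  have hP : Function.Injective P := by
    intro x y hxy
    funext s
    have := congrFun hxy (φ₀.symm s)
    simpa [P] using this
  have hwv : ∀ x : Fin (Fintype.card σ) → ℤ, wv (P x) = fun i => x (c i) := by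
    intro x
    funext i
    show x (φ₀ ⟨k + i, _⟩) = x (c i)
    rw [hφ₀]
  have hgev : ∀ (x : Fin (Fintype.card σ) → ℤ) (j : Fin k) (g : (MvPolynomial (Fin m) ℤ)[X]),
      gev (P x) j g = R.ev2 g (fun i => x (c i)) (x (φ₀ ⟨j, hlt j⟩)) := by
    intro x j g
    unfold gev R.ev2
    rw [hwv]
    rfl
  refine ⟨m, k, E, φ₀.trans ψ.symm, T₀.image P, G, hm, hE, hne.image P, ?_, ⟨?_, ?_⟩, ?_⟩
  · intro x hx
    obtain ⟨x₀, hx₀, rfl⟩ := Finset.mem_image.1 hx
    obtain ⟨y, hy, rfl⟩ := Finset.mem_image.1 (hT₀ hx₀)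
    have h1 : (fun s => P (F y) ((φ₀.trans ψ.symm).symm s)) = y := by
      funext s
      simp [P, F]
    rw [h1]
    exact hy
  · intro j
    refine ⟨?_, (hG j).bdd.1, (hG j).bdd.2⟩
    intro h0
    obtain ⟨x, hx⟩ := hne
    apply (hG j).der x hx
    rw [h0]
    simp [R.ev2]
  · intro j x hx
    obtain ⟨x₀, hx₀, rfl⟩ := Finset.mem_image.1 hx
    refine ⟨?_, ?_, ?_⟩
    · rw [hgev]
      exact (hG j).zero x₀ hx₀
    · rw [hgev]
      exact (hG j).der x₀ hx₀
    · rw [hwv]
      exact (hG j).lead x₀ hx₀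
  · intro T' hT' hcard hdep
    have himg : (T₀.filter fun x => P x ∈ T').image P = T' := by
      ext y
      simp only [Finset.mem_image, Finset.mem_filter]
      constructor
      · rintro ⟨x, ⟨-, hx⟩, rfl⟩
        exact hx
      · intro hy
        obtain ⟨x, hx, rfl⟩ := Finset.mem_image.1 (hT' hy)
        exact ⟨x, ⟨hx, hy⟩, rfl⟩
    refine hrob (T₀.filter fun x => P x ∈ T') (Finset.filter_subset _ _) ?_ ?_
    · have h1 : T'.card = (T₀.filter fun x => P x ∈ T').card := by
        rw [← himg, Finset.card_image_of_injective _ hP, himg]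
      rw [Finset.card_image_of_injective _ hP, h1] at hcard
      exact hcard
    · obtain ⟨g, hg0, hgd, hg⟩ := hdep
      refine ⟨g, hg0, hgd, fun x hx => ?_⟩
      have h1 := hg (P x) (Finset.mem_filter.1 hx).2
      rwa [hwv] at h1

end Pool.Agent.LRG.H21
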