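import Pool.Agent.LRG.StmtsE

/-!
# Squad LRG, row SPC (helper21): spacing and size of the Gaussian integers
-/

set_option autoImplicit false

namespace Pool.Agent.LRG.H21

open Pool.Agent.LRG.E

variable {r₁ r₂ : ℕ}

theorem om_re (o : Ro r₁ r₂) : (om o).re = (omre o : ℝ) := by
  simp [om]

theorem om_im (o : Ro r₁ r₂) : (om o).im = (omim o : ℝ) := by
  simp [om]

theorem ex_inj {k k' : Fa r₁ r₂} (h : ex k = ex k') : k = k' := by
  rcases k with i | j <;> rcases k' with i' | j'
  · have : (i : ℕ) = i' := h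
    rw [Fin.ext this]
  · have h1 : (i : ℕ) = r₁ + j' := h
    have := i.2
    omega
  · have h1 : r₁ + (j : ℕ) = i' := h
    have := i'.2
    omega
  · have h1 : r₁ + (j : ℕ) = r₁ + j' := h
    have h2 : (j : ℕ) = j' := by omega
    rw [Fin.ext h2]

theorem ex_le (k : Fa r₁ r₂) : ex k ≤ r₁ + r₂ := by
  rcases k with i | j
  · have h : ex (Sum.inl i : Fa r₁ r₂) = i := rfl
    rw [h]
    have := i.2
    omega
  · have h : ex (Sum.inr j : Fa r₁ r₂) = r₁ + j := rfl
    rw [h]
    have := j.2
    omega

theorem omim_abs (o : Ro r₁ r₂) : |(omim o : ℝ)| ≤ 5 ^ (r₁ + r₂) := by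
  rcases o with i | ⟨j, b⟩
  · have h : omim (Sum.inl i : Ro r₁ r₂) = 0 := rfl
    rw [h]
    simp
  · have h1 : (5 : ℝ) ^ (r₁ + (j : ℕ)) ≤ 5 ^ (r₁ + r₂) :=
      pow_le_pow_right₀ (by norm_num) (by have := j.2; omega)
    cases b
    · have h : omim (Sum.inr (j, false) : Ro r₁ r₂) = -5 ^ (r₁ + (j : ℕ)) := rfl
      rw [h]
      push_cast
      rw [abs_neg, abs_of_nonneg (by positivity)]
      exact h1
    · have h : omim (Sum.inr (j, true) : Ro r₁ r₂) = 5 ^ (r₁ + (j : ℕ)) := rfl
      rw [h]
      push_cast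
      rw [abs_of_nonneg (by positivity)]
      exact h1

theorem int_abs_ge {z w : ℤ} (h : z ≠ w) : (1 : ℝ) ≤ |(z : ℝ) - w| := by
  have h1 : (1 : ℤ) ≤ |z - w| := Int.one_le_abs (sub_ne_zero.2 h)
  exact_mod_cast h1

theorem spc : SpcStmt := by
  intro r₁ r₂
  refine ⟨?_, ?_, ?_⟩
  · intro o o' hne
    have hor : omre o ≠ omre o' ∨ omim o ≠ omim o' := by
      by_contra hcon
      push Not at hcon
      obtain ⟨hre, him⟩ := hcon
      have h1 : ex (fac o) = ex (fac o') := by
        have h2 : (5 : ℤ) ^ ex (fac o) = 5 ^ ex (fac o') := hre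
        exact Int.pow_right_injective (by decide) h2
      have h2 := ex_inj h1
      rcases o with i | ⟨j, b⟩ <;> rcases o' with i' | ⟨j', b'⟩
      · apply hne
        exact congrArg Sum.inl (Sum.inl.inj h2)
      · exact absurd h2 (by simp [fac])
      · exact absurd h2 (by simp [fac])
      · have h3 : j = j' := Sum.inr.inj h2
        subst h3
        have h5 : (0 : ℤ) < 5 ^ (r₁ + (j : ℕ)) := by positivity
        cases b <;> cases b'
        · exact hne rfl
        · have h4 : -(5 : ℤ) ^ (r₁ + (j : ℕ)) = 5 ^ (r₁ + (j : ℕ)) := him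
          omega
        · have h4 : (5 : ℤ) ^ (r₁ + (j : ℕ)) = -5 ^ (r₁ + (j : ℕ)) := him
          omega
        · exact hne rfl
    rcases hor with h | h
    · refine (int_abs_ge h).trans ?_
      have h1 := Complex.abs_re_le_norm (om o - om o')
      rwa [Complex.sub_re, om_re, om_re] at h1
    · refine (int_abs_ge h).trans ?_
      have h1 := Complex.abs_im_le_norm (om o - om o')
      rwa [Complex.sub_im, om_im, om_im] at h1
  · intro o
    have hre : (omre o : ℝ) = 5 ^ ex (fac o) := by
      unfold omre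
      push_cast
      rfl
    constructor
    · have h1 := Complex.abs_re_le_norm (om o)
      rw [om_re, hre, abs_of_nonneg (by positivity)] at h1
      exact (one_le_pow₀ (by norm_num)).trans h1
    · have h1 := Complex.norm_le_abs_re_add_abs_im (om o)
      rw [om_re, om_im, hre, abs_of_nonneg (by positivity)] at h1
      have h2 : (5 : ℝ) ^ ex (fac o) ≤ 5 ^ (r₁ + r₂) :=
        pow_le_pow_right₀ (by norm_num) (ex_le _)
      have h3 := omim_abs o
      unfold bd
      linarith
  · intro o
    refine ⟨?_, ?_, ?_⟩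
    · rcases o with i | ⟨j, b⟩
      · apply Complex.ext
        · rw [Complex.conj_re, om_re, om_re]
          rfl
        · rw [Complex.conj_im, om_im, om_im]
          have h : omim (Sum.inl i : Ro r₁ r₂) = 0 := rfl
          have h' : omim (st (Sum.inl i : Ro r₁ r₂)) = 0 := rfl
          rw [h, h']
          simp
      · apply Complex.ext
        · rw [Complex.conj_re, om_re, om_re]
          rfl
        · rw [Complex.conj_im, om_im, om_im]
          have ht : omim (Sum.inr (j, true) : Ro r₁ r₂) = 5 ^ (r₁ + (j : ℕ)) := rfl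
          have hf : omim (Sum.inr (j, false) : Ro r₁ r₂) = -5 ^ (r₁ + (j : ℕ)) := rfl
          cases b
          · have h' : omim (st (Sum.inr (j, false) : Ro r₁ r₂)) = 5 ^ (r₁ + (j : ℕ)) := rfl
            rw [hf, h']
            push_cast
            ring
          · have h' : omim (st (Sum.inr (j, true) : Ro r₁ r₂)) = -5 ^ (r₁ + (j : ℕ)) := rfl
            rw [ht, h']
            push_cast
            ring
    · rcases o with i | ⟨j, b⟩
      · rfl
      · cases b <;> rfl
    · rcases o with i | ⟨j, b⟩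
      · rfl
      · rfl

end Pool.Agent.LRG.H21
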